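import Pool.Agent.Y295.HR.A

/-! The set of points where the series is large on all levels is rich: it is not covered by
finitely many short intervals with small sum of the square roots of the lengths. -/

open Filter Topology Set

namespace Pool.Agent.Y295.HR

open Pool.Agent.Helper95.Hada

/-- the lower bounds on the levels hold on a rich set near `0` -/
def Rich (S : Ser) {d : ℝ} (L : Lev S d) (δ : ℝ) : Prop :=
  ∃ (ψ : ℕ → ℝ) (n₀ : ℕ) (v : ℝ), Tendsto ψ atTop atTop ∧ 0 < v ∧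
    ∀ P : Finset (ℝ × ℝ), (∀ b ∈ P, 0 < b.2) → ∑ b ∈ P, Real.sqrt b.2 < v →
      ∃ θ, |θ| ≤ δ ∧ (∀ b ∈ P, b.2 < |θ - b.1|) ∧
        ∀ n, n₀ ≤ n → ∀ s ∈ Icc (L.s (n + 2)) (L.s (n + 1)), ψ n ≤ ‖S.F s θ‖

theorem sum_le_sq (P : Finset (ℝ × ℝ)) (hP : ∀ b ∈ P, 0 < b.2) :
    ∑ b ∈ P, b.2 ≤ (∑ b ∈ P, Real.sqrt b.2) ^ 2 := by
  calc ∑ b ∈ P, b.2 = ∑ b ∈ P, (Real.sqrt b.2) ^ 2 :=
        Finset.sum_congr rfl fun b hb => (Real.sq_sqrt (hP b hb).le).symm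
    _ ≤ (∑ b ∈ P, Real.sqrt b.2) ^ 2 :=
        Finset.sum_sq_le_sq_sum_of_nonneg fun b _ => Real.sqrt_nonneg _

/-- the case of finitely many gaps -/
theorem caseB_loc (q d Kb : ℝ) (hq : 1 < q) (hd : 0 < d) (hKb : 1 < Kb) (S : Ser) (hS : S.q = q)
    (L : Lev S d) (n₀ : ℕ) (hn : ∀ n, n₀ ≤ n → L.η n ≤ Kb * L.η (n + 1)) {Θ : ℝ} (hΘ0 : 0 < Θ) :
    Rich S L Θ := by
  obtain ⟨m, Lm, t₀, hm, ht₀, hav⟩ := avoid_global q d Kb hq hd hKb
  -- choose r
  obtain ⟨r, hr0, hr1, hrm⟩ : ∃ r : ℝ, 0 < r ∧ r < 1 ∧ 1 < r ^ m * (1 + d) := by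
    have hc : Tendsto (fun r : ℝ => r ^ m * (1 + d)) (𝓝[<] 1) (𝓝 ((1:ℝ) ^ m * (1 + d))) := by
      apply Tendsto.mono_left _ nhdsWithin_le_nhds
      have : Continuous (fun r : ℝ => r ^ m * (1 + d)) := by fun_prop
      exact this.tendsto 1
    have h1 : ∀ᶠ r in 𝓝[<] (1:ℝ), 1 < r ^ m * (1 + d) := by
      apply hc.eventually_const_lt
      simp; exact hd
    have h2 : ∀ᶠ r in 𝓝[<] (1:ℝ), r ∈ Set.Ioo (0:ℝ) 1 := Ioo_mem_nhdsLT (by norm_num)
    obtain ⟨r, hr⟩ := (h1.and h2).exists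
    exact ⟨r, hr.2.1, hr.2.2, hr.1⟩
  obtain ⟨n3, hn3⟩ : ∃ n3, ∀ n, n3 ≤ n → L.η n ≤ Θ := by
    have h1 := (eta_tendsto L).eventually_lt_const hΘ0
    obtain ⟨n3, h⟩ := eventually_atTop.1 h1
    exact ⟨n3, fun n hn => (h n hn).le⟩
  -- choose n1
  obtain ⟨n1, hn1, hn13, hn1s⟩ : ∃ n1, n₀ ≤ n1 ∧ n3 ≤ n1 ∧
      4 * (Lm:ℝ) * (r ^ n1 * (1 - r)⁻¹) < 1 := by
    have hc : Tendsto (fun n : ℕ => 4 * (Lm:ℝ) * (r ^ n * (1 - r)⁻¹)) atTop (𝓝 (4 * (Lm:ℝ) * (0 * (1 - r)⁻¹))) := by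
      apply Tendsto.const_mul
      apply Tendsto.mul_const
      exact tendsto_pow_atTop_nhds_zero_of_lt_one hr0.le hr1
    have h1 : ∀ᶠ n in atTop, 4 * (Lm:ℝ) * (r ^ n * (1 - r)⁻¹) < 1 := by
      apply hc.eventually_lt_const
      simp
    obtain ⟨n, hn⟩ := (h1.and ((eventually_ge_atTop n₀).and (eventually_ge_atTop n3))).exists
    exact ⟨n, hn.2.1, hn.2.2, hn.1⟩
  have hηΘ : ∀ n, n1 ≤ n → L.η n ≤ Θ := fun n h => hn3 n (hn13.trans h)
  have hB : ∀ n, n₀ ≤ n → ∃ B : Finset ℝ,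
      (B.card : ℝ) * (L.η (n + 2) / 9) ≤ Lm * (Θ + L.η (n + 2)) ∧
        ∀ θ ∈ Icc (-Θ) Θ, (∀ b ∈ B, r ^ n * (L.η (n + 2) / 9) < |θ - b|) →
          ∀ s ∈ Icc (L.s (n + 2)) (L.s (n + 1)), t₀ * (r ^ n) ^ m * (1 + d) ^ (n + 1) ≤ ‖S.F s θ‖ := by
    intro n hn'
    obtain ⟨B, -, h1, h2⟩ := hav S hS L n (hn n hn') (hn (n+1) (by omega)) (r ^ n) Θ (by positivity)
      (pow_le_one₀ hr0.le hr1.le) hΘ0
    exact ⟨B, h1, h2⟩
  choose B hB1 hB2 using fun (n : ℕ) => hB (n + n1) (by omega)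
  let U : ℕ → Set ℝ := fun n => ⋃ b ∈ B n, Icc (b - r ^ (n + n1) * (L.η (n + n1 + 2) / 9)) (b + r ^ (n + n1) * (L.η (n + n1 + 2) / 9))
  have hU : ∀ n, MeasureTheory.volume (U n) ≤ ENNReal.ofReal (4 * Lm * Θ * r ^ n1 * r ^ n) := by
    intro n
    have hρ : 0 < L.η (n + n1 + 2) := L.η_pos _
    calc MeasureTheory.volume (U n) ≤ ∑ b ∈ B n, MeasureTheory.volume (Icc (b - r ^ (n + n1) * (L.η (n + n1 + 2) / 9)) (b + r ^ (n + n1) * (L.η (n + n1 + 2) / 9))) := MeasureTheory.measure_biUnion_finset_le _ _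
      _ = ∑ b ∈ B n, ENNReal.ofReal (2 * (r ^ (n + n1) * (L.η (n + n1 + 2) / 9))) := by
          apply Finset.sum_congr rfl
          intro b _
          rw [Real.volume_Icc]
          congr 1
          ring
      _ = ENNReal.ofReal ((B n).card * (2 * (r ^ (n + n1) * (L.η (n + n1 + 2) / 9)))) := by
          rw [Finset.sum_const, nsmul_eq_mul, ENNReal.ofReal_mul (by positivity)]
          simp
      _ ≤ ENNReal.ofReal (4 * Lm * Θ * r ^ n1 * r ^ n) := by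
          apply ENNReal.ofReal_le_ofReal
          have h1 := hB1 n
          have h2 : (Lm:ℝ) * (Θ + L.η (n + n1 + 2)) ≤ Lm * (2 * Θ) := by
            apply mul_le_mul_of_nonneg_left _ (by positivity)
            linarith [hηΘ (n + n1 + 2) (by omega)]
          have h3 : ((B n).card : ℝ) * (L.η (n + n1 + 2) / 9) ≤ Lm * (2 * Θ) := h1.trans h2
          have hrp : 0 < r ^ (n + n1) := by positivity
          calc ((B n).card : ℝ) * (2 * (r ^ (n + n1) * (L.η (n + n1 + 2) / 9)))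
              = 2 * r ^ (n + n1) * (((B n).card : ℝ) * (L.η (n + n1 + 2) / 9)) := by ring
            _ ≤ 2 * r ^ (n + n1) * (Lm * (2 * Θ)) := by
                apply mul_le_mul_of_nonneg_left h3 (by positivity)
            _ = 4 * Lm * Θ * r ^ n1 * r ^ n := by rw [pow_add]; ring
  have hsum : HasSum (fun n : ℕ => 4 * (Lm:ℝ) * Θ * r ^ n1 * r ^ n) (4 * (Lm:ℝ) * Θ * r ^ n1 * (1 - r)⁻¹) :=
    (hasSum_geometric_of_lt_one hr0.le hr1).mul_left _
  have hUU : MeasureTheory.volume (⋃ n, U n) ≤ ENNReal.ofReal (4 * (Lm:ℝ) * Θ * r ^ n1 * (1 - r)⁻¹) := by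
    calc MeasureTheory.volume (⋃ n, U n) ≤ ∑' n, MeasureTheory.volume (U n) := MeasureTheory.measure_iUnion_le _
      _ ≤ ∑' n, ENNReal.ofReal (4 * Lm * Θ * r ^ n1 * r ^ n) := ENNReal.tsum_le_tsum hU
      _ = ENNReal.ofReal (∑' n, (4 * Lm * Θ * r ^ n1 * r ^ n)) := by
          rw [ENNReal.ofReal_tsum_of_nonneg (fun n => by positivity) hsum.summable]
      _ = _ := by rw [hsum.tsum_eq]
  have h3Θ : 4 * (Lm:ℝ) * Θ * r ^ n1 * (1 - r)⁻¹ < Θ := by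
    calc 4 * (Lm:ℝ) * Θ * r ^ n1 * (1 - r)⁻¹ = Θ * (4 * (Lm:ℝ) * (r ^ n1 * (1 - r)⁻¹)) := by ring
      _ < Θ * 1 := mul_lt_mul_of_pos_left hn1s hΘ0
      _ = Θ := mul_one _
  refine ⟨fun n => t₀ * (r ^ n) ^ m * (1 + d) ^ (n + 1), n1, Real.sqrt Θ / 2, ?_, by positivity,
    fun P hP hPv => ?_⟩
  · have : (fun n : ℕ => t₀ * (r ^ n) ^ m * (1 + d) ^ (n + 1)) = fun n : ℕ => (t₀ * (1 + d)) * (r ^ m * (1 + d)) ^ n := by
      funext n
      rw [← pow_mul, mul_comm n m, pow_mul, mul_pow, pow_succ]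
      ring
    rw [this]
    apply Tendsto.const_mul_atTop (by positivity)
    exact tendsto_pow_atTop_atTop_of_one_lt hrm
  -- the given intervals
  let Z : Set ℝ := ⋃ b ∈ P, Icc (b.1 - b.2) (b.1 + b.2)
  have hZ : MeasureTheory.volume Z ≤ ENNReal.ofReal (Θ / 2) := by
    calc MeasureTheory.volume Z ≤ ∑ b ∈ P, MeasureTheory.volume (Icc (b.1 - b.2) (b.1 + b.2)) :=
          MeasureTheory.measure_biUnion_finset_le _ _
      _ = ∑ b ∈ P, ENNReal.ofReal (2 * b.2) := by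
          apply Finset.sum_congr rfl
          intro b _
          rw [Real.volume_Icc]
          congr 1
          ring
      _ = ENNReal.ofReal (∑ b ∈ P, 2 * b.2) := by
          rw [ENNReal.ofReal_sum_of_nonneg]
          intro b hb
          have := hP b hb
          positivity
      _ ≤ ENNReal.ofReal (Θ / 2) := by
          apply ENNReal.ofReal_le_ofReal
          rw [← Finset.mul_sum]
          have h1 := sum_le_sq P hP
          have h0 : 0 ≤ ∑ b ∈ P, Real.sqrt b.2 := Finset.sum_nonneg fun _ _ => Real.sqrt_nonneg _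
          have h2 : (∑ b ∈ P, Real.sqrt b.2) ^ 2 ≤ (Real.sqrt Θ / 2) ^ 2 :=
            pow_le_pow_left₀ h0 hPv.le 2
          rw [div_pow, Real.sq_sqrt hΘ0.le] at h2
          linarith
  obtain ⟨θ, hθ1, hθ2⟩ : ∃ θ ∈ Icc (-Θ) Θ, θ ∉ (⋃ n, U n) ∪ Z := by
    by_contra hcon
    push Not at hcon
    have hsub : Icc (-Θ) Θ ⊆ (⋃ n, U n) ∪ Z := hcon
    have h1 := (MeasureTheory.measure_mono (μ := MeasureTheory.volume) hsub).trans
      (MeasureTheory.measure_union_le _ _)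
    have h1' := h1.trans (add_le_add hUU hZ)
    have hr' : 0 < (1 - r)⁻¹ := inv_pos.2 (by linarith)
    rw [← ENNReal.ofReal_add (by positivity) (by positivity), Real.volume_Icc] at h1'
    have h2 : Θ - -Θ ≤ 4 * (Lm:ℝ) * Θ * r ^ n1 * (1 - r)⁻¹ + Θ / 2 := by
      by_contra hlt
      push Not at hlt
      have := (ENNReal.ofReal_lt_ofReal_iff (by linarith : 0 < Θ - -Θ)).2 hlt
      exact absurd h1' (not_le.2 this)
    linarith
  refine ⟨θ, abs_le.2 hθ1, fun b hb => ?_, ?_⟩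
  · by_contra hcon
    push Not at hcon
    apply hθ2
    right
    simp only [Z, mem_iUnion]
    refine ⟨b, hb, ?_⟩
    rw [abs_le] at hcon
    constructor
    · linarith [hcon.1]
    · linarith [hcon.2]
  · intro n hn' s hs
    obtain ⟨k, rfl⟩ : ∃ k, n = k + n1 := ⟨n - n1, by omega⟩
    refine hB2 k θ hθ1 ?_ s hs
    intro b hb
    by_contra hcon
    push Not at hcon
    apply hθ2
    left
    rw [mem_iUnion]
    refine ⟨k, ?_⟩
    simp only [U, mem_iUnion]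
    refine ⟨b, hb, ?_⟩
    rw [abs_le] at hcon
    constructor
    · linarith [hcon.1]
    · linarith [hcon.2]

end Pool.Agent.Y295.HR
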