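import Pool.Agent.Y295.HR.B

/-! The localised main construction (adapted from `Helper95.HadaMain.main_ser`). -/

open Filter Topology Set

namespace Pool.Agent.Y295.HR

open Pool.Agent.Helper95.Hada

/-- main theorem on series -/
theorem main_loc (S : Ser) (hS : Tendsto S.M (𝓝[>] 0) atTop) {δ : ℝ} (hδ : 0 < δ) :
    ∃ (d : ℝ) (L : Lev S d), Rich S L (3 * δ) := by
  classical
  obtain ⟨R⟩ := exists_par S.q S.one_lt_q
  have hc := R.c_pos
  have hd : 0 < R.d := by unfold Par.d; linarith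
  have hκ : 0 < R.κ := by unfold Par.κ; linarith
  have hε : 0 < R.ε := by unfold Par.ε; positivity
  have hε₁ : 0 < R.ε₁ := by
    unfold Par.ε₁
    apply Real.log_pos
    nlinarith [mul_pos hκ hd]
  have hw : 0 < R.w := by unfold Par.w; positivity
  have hr₀ : 0 < R.r₀ := by unfold Par.r₀; positivity
  have hw1 : R.w < 1 := by
    unfold Par.w
    have h1 : R.c / 24000 < 1 := by
      have := R.c_le
      linarith
    have h0 : 0 < R.c / 24000 := by positivity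
    nlinarith
  have hr₀1 : R.r₀ ≤ 1 / 4 := by
    unfold Par.r₀
    have h1 : R.c / 24000 ≤ 1 / 4 := by
      have := R.c_le
      linarith
    have h0 : 0 < R.c / 24000 := by positivity
    calc (R.c / 24000) ^ 4 ≤ (1 / 4) ^ 4 := pow_le_pow_left₀ h0.le h1 4
      _ ≤ 1 / 4 := by norm_num
  obtain ⟨L⟩ := exists_lev S hS R.d hd
  obtain ⟨Kb, hKb, hcut⟩ := exists_cut R.d hd R.Cs R.ε₁ R.κ R.one_lt_Cs hε₁ hκ
  obtain ⟨m, Lm, t₀, hm, ht₀, hav⟩ := avoid_global S.q R.d Kb S.one_lt_q hd hKb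
  by_cases hB : ∃ n₀, ∀ n, n₀ ≤ n → L.η n ≤ Kb * L.η (n + 1)
  · obtain ⟨n₀, hn⟩ := hB
    exact ⟨R.d, L, caseB_loc S.q R.d Kb S.one_lt_q hd hKb S rfl L n₀ hn (by positivity)⟩
  push Not at hB
  -- the ratio r
  obtain ⟨r, hr0, hr1, hrm⟩ : ∃ r : ℝ, 0 < r ∧ r < 1 ∧ 1 < r ^ m * (1 + R.d) := by
    have hcont : Tendsto (fun r : ℝ => r ^ m * (1 + R.d)) (𝓝[<] 1) (𝓝 ((1 : ℝ) ^ m * (1 + R.d))) := by
      apply Tendsto.mono_left _ nhdsWithin_le_nhds
      exact (Continuous.tendsto (by fun_prop) 1)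
    have h1 : (1 : ℝ) < (1 : ℝ) ^ m * (1 + R.d) := by simp [hd]
    have h2 := hcont.eventually (lt_mem_nhds h1)
    have h3 : ∀ᶠ r : ℝ in 𝓝[<] 1, r < 1 := self_mem_nhdsWithin
    have h4 : ∀ᶠ r : ℝ in 𝓝[<] 1, 0 < r := nhdsWithin_le_nhds (lt_mem_nhds one_pos)
    obtain ⟨r, h⟩ := (h2.and (h3.and h4)).exists
    exact ⟨r, h.2.2, h.2.1, h.1⟩
  -- smallness of the tail of the sum of square roots
  have hsq : Summable (fun n : ℕ => Real.sqrt (r ^ n)) := by
    have : (fun n : ℕ => Real.sqrt (r ^ n)) = fun n => (Real.sqrt r) ^ n := by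
      funext n
      rw [Real.sqrt_eq_iff_mul_self_eq (by positivity) (by positivity), ← mul_pow, Real.mul_self_sqrt hr0.le]
    rw [this]
    apply summable_geometric_of_lt_one (Real.sqrt_nonneg _)
    rw [Real.sqrt_lt' one_pos]
    simpa using hr1
  have hcw : 0 < R.c * R.w := mul_pos hc hw
  obtain ⟨n₁, hn₁⟩ : ∃ n₁ : ℕ, ∀ N : Finset ℕ, (∀ n ∈ N, n₁ ≤ n) →
      24000 * (Lm : ℝ) * ∑ n ∈ N, Real.sqrt (r ^ n) ≤ R.c * R.w := by
    have hpos : 0 < R.c * R.w / (24000 * (Lm : ℝ) + 1) := by positivity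
    obtain ⟨s, hs⟩ := (summable_iff_vanishing_norm.1 hsq) _ hpos
    obtain ⟨b, hb⟩ := s.exists_nat_subset_range
    refine ⟨b, fun N hN => ?_⟩
    have hdisj : Disjoint N s := by
      rw [Finset.disjoint_left]
      intro a ha has
      have h1 := Finset.mem_range.1 (hb has)
      have h2 := hN a ha
      omega
    have h3 := hs N hdisj
    rw [Real.norm_eq_abs] at h3
    have h4 := (abs_lt.1 h3).2
    rw [lt_div_iff₀ (by positivity)] at h4
    have h5 : 0 ≤ ∑ n ∈ N, Real.sqrt (r ^ n) := Finset.sum_nonneg (fun _ _ => Real.sqrt_nonneg _)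
    nlinarith
  obtain ⟨n₂, hn₂⟩ : ∃ n₂ : ℕ, ∀ n, n₂ ≤ n → r ^ n ≤ 1 / 2 := by
    have := tendsto_pow_atTop_nhds_zero_of_lt_one hr0.le hr1
    have h2 := this.eventually (gt_mem_nhds (show (0 : ℝ) < 1 / 2 by norm_num))
    obtain ⟨n₂, h⟩ := eventually_atTop.1 h2
    exact ⟨n₂, fun n hn => (h n hn).le⟩
  obtain ⟨g₁, hinit⟩ := init_loc R rfl L hδ
  -- gaps
  obtain ⟨g₀, hg₀1, hg₀'⟩ := hB (max g₁ (max n₁ n₂))
  have hg₀ : max n₁ n₂ ≤ g₀ := (le_max_right _ _).trans hg₀1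
  have hnext : ∀ g, ∃ g', g < g' ∧ Kb * L.η (g' + 1) ≤ L.η g' ∧
      ∀ n, g < n → n < g' → L.η n ≤ Kb * L.η (n + 1) := by
    intro g
    have hex : ∃ g', g < g' ∧ Kb * L.η (g' + 1) < L.η g' := by
      obtain ⟨g', h1, h2⟩ := hB (g + 1)
      exact ⟨g', by omega, h2⟩
    refine ⟨Nat.find hex, (Nat.find_spec hex).1, (Nat.find_spec hex).2.le, fun n h1 h2 => ?_⟩
    have := Nat.find_min hex h2
    push Not at this
    exact this h1
  choose next hn1 hn2 hn3 using hnext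
  let G : ℕ → ℕ := fun i => Nat.rec g₀ (fun _ g => next g) i
  have hG0 : G 0 = g₀ := rfl
  have hGs : ∀ i, G (i + 1) = next (G i) := fun i => rfl
  have hGlt : ∀ i, G i < G (i + 1) := fun i => hn1 (G i)
  have hGmono : StrictMono G := strictMono_nat_of_lt_succ hGlt
  have hGgap : ∀ i, Kb * L.η (G i + 1) ≤ L.η (G i) := by
    intro i
    cases i with
    | zero => exact hg₀'.le
    | succ i => exact hn2 (G i)
  have hGbet : ∀ i n, G i < n → n < G (i + 1) → L.η n ≤ Kb * L.η (n + 1) := fun i n => hn3 (G i) n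
  let C : ∀ i, Cut L R.Cs R.ε₁ R.κ (G i) := fun i => Classical.choice (hcut S L (G i) (hGgap i))
  obtain ⟨hℓ0δ, hinit'⟩ := hinit (G 0) ((le_max_left _ _).trans hg₀1) (C 0)
  let ℓ : ℕ → ℝ := fun i => R.ε / (C i).Λ
  have hℓpos : ∀ i, 0 < ℓ i := fun i => div_pos hε (C i).hΛ
  let Θ : ℝ := 3 * δ
  have hΘ : 0 < Θ := by
    simp only [Θ]
    linarith
  have hBex : ∀ n : ℕ, ∃ B : Finset ℝ, (L.η n ≤ Kb * L.η (n + 1) → L.η (n + 1) ≤ Kb * L.η (n + 2) →
      (∀ y : ℝ, (B.filter (fun b => |b - y| ≤ (L.η (n + 2) / 9) / 2)).card ≤ Lm) ∧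
        ∀ θ ∈ Icc (-Θ) Θ, (∀ b ∈ B, r ^ n * (L.η (n + 2) / 9) < |θ - b|) →
          ∀ s ∈ Icc (L.s (n + 2)) (L.s (n + 1)), t₀ * (r ^ n) ^ m * (1 + R.d) ^ (n + 1) ≤ ‖S.F s θ‖) := by
    intro n
    by_cases h1 : L.η n ≤ Kb * L.η (n + 1)
    · by_cases h2 : L.η (n + 1) ≤ Kb * L.η (n + 2)
      · obtain ⟨B, hb1, -, hb3⟩ := hav S rfl L n h1 h2 (r ^ n) Θ (by positivity)
          (pow_le_one₀ hr0.le hr1.le) hΘ
        exact ⟨B, fun _ _ => ⟨hb1, hb3⟩⟩
      · exact ⟨∅, fun _ h => absurd h h2⟩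
    · exact ⟨∅, fun h _ => absurd h h1⟩
  choose B hBB using hBex
  let N : ℕ → Finset ℕ := fun i => (Finset.Ioo (G i) (G (i + 1))).filter (fun n => n + 1 < G (i + 1))
  have hNmem : ∀ i n, n ∈ N i ↔ G i < n ∧ n + 1 < G (i + 1) := by
    intro i n
    simp only [N, Finset.mem_filter, Finset.mem_Ioo]
    constructor
    · rintro ⟨⟨h1, h2⟩, h3⟩; exact ⟨h1, h3⟩
    · rintro ⟨h1, h3⟩; exact ⟨⟨h1, by omega⟩, h3⟩
  let Fam : ℕ → Finset (ℝ × ℝ) := fun i =>
    (N i).biUnion (fun n => (B n).image (fun b => (b, r ^ n * (L.η (n + 2) / 9))))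
  refine ⟨R.d, L, fun n : ℕ => min ((R.c / 4) * (1 + R.d) ^ (n + 1)) (t₀ * (r ^ m * (1 + R.d)) ^ n),
    G 0, R.w * Real.sqrt δ, ?_, by positivity, fun P₀ hP₀ hP₀v => ?_⟩
  · rw [tendsto_atTop]
    intro b
    have h1 : Tendsto (fun n : ℕ => (R.c / 4) * (1 + R.d) ^ (n + 1)) atTop atTop := by
      apply Tendsto.const_mul_atTop (by positivity)
      exact (tendsto_pow_atTop_atTop_of_one_lt (by linarith)).comp (tendsto_add_atTop_nat 1)
    have h2 : Tendsto (fun n : ℕ => t₀ * (r ^ m * (1 + R.d)) ^ n) atTop atTop := by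
      apply Tendsto.const_mul_atTop ht₀
      exact tendsto_pow_atTop_atTop_of_one_lt hrm
    filter_upwards [h1.eventually_ge_atTop b, h2.eventually_ge_atTop b] with n ha hb
    exact le_min ha hb
  have hWP₀ : W P₀ 0 δ < R.w := by
    refine (W_le_sum P₀ 0 hδ hP₀).trans_lt ?_
    rw [div_lt_iff₀ (Real.sqrt_pos.2 hδ)]
    exact hP₀v
  obtain ⟨θ₀, hθ₀δ, hθ₀, hWθ₀⟩ := hinit' P₀ hP₀ hWP₀
  let Pf : ℕ → Finset (ℝ × ℝ) := fun i => Nat.rec P₀ (fun j P => P ∪ Fam j) i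
  have hPf0 : Pf 0 = P₀ := rfl
  have hPfs : ∀ i, Pf (i + 1) = Pf i ∪ Fam i := fun i => rfl
  have hFampos : ∀ i, ∀ b ∈ Fam i, 0 < b.2 := by
    intro i b hb
    simp only [Fam, Finset.mem_biUnion, Finset.mem_image] at hb
    obtain ⟨n, -, b', -, rfl⟩ := hb
    have := L.η_pos (n + 2)
    positivity
  have hPfpos : ∀ i, ∀ b ∈ Pf i, 0 < b.2 := by
    intro i
    induction i with
    | zero => intro b hb; exact hP₀ b (by rwa [hPf0] at hb)
    | succ i ih =>
      intro b hb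
      rw [hPfs, Finset.mem_union] at hb
      rcases hb with hb | hb
      · exact ih b hb
      · exact hFampos i b hb
  let Q : ℕ → ℝ → Prop := fun i θ => Good R L (C i) θ ∧ W (Pf i) θ (ℓ i) < R.w
  have hQ0 : Q 0 θ₀ := ⟨hθ₀, by rw [hPf0]; exact hWθ₀⟩
  have hGge : ∀ i, max n₁ n₂ ≤ G i := by
    intro i
    exact hg₀.trans (hGmono.monotone (Nat.zero_le i))
  have hstep : ∀ i θ, Q i θ → ℓ (i + 1) ≤ R.r₀ * ℓ i ∧ ∃ θ', |θ' - θ| ≤ ℓ i ∧ Q (i + 1) θ' := by
    rintro i θ ⟨hgood, hWi⟩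
    have hge : ∀ n ∈ N i, max n₁ n₂ ≤ n := by
      intro n hn
      exact (hGge i).trans ((hNmem i n).1 hn).1.le
    obtain ⟨h1, θ', h2, h3, h4⟩ := step R rfl L (hGlt i) (C i) (C (i + 1)) θ hgood (Pf i) (hPfpos i) hWi
      (N i) (fun n hn => (hNmem i n).1 hn) (fun n => r ^ n) B Lm
      (by
        intro n hn
        obtain ⟨ha, hb⟩ := (hNmem i n).1 hn
        exact (hBB n (hGbet i n ha (by omega)) (hGbet i (n + 1) (by omega) hb)).1)
      (fun n _ => by positivity)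
      (fun n hn => hn₂ n ((le_max_right _ _).trans (hge n hn)))
      (hn₁ (N i) (fun n hn => (le_max_left _ _).trans (hge n hn)))
    exact ⟨h1, θ', h2, h3, by rw [hPfs]; exact h4⟩
  let st : (i : ℕ) → {θ // Q i θ} := fun i =>
    Nat.rec (motive := fun i => {θ // Q i θ}) ⟨θ₀, hQ0⟩
      (fun i s => ⟨Classical.choose (hstep i s.1 s.2).2, (Classical.choose_spec (hstep i s.1 s.2).2).2⟩) i
  let th : ℕ → ℝ := fun i => (st i).1
  have hth0 : th 0 = θ₀ := rfl
  have hthQ : ∀ i, Q i (th i) := fun i => (st i).2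
  have hths : ∀ i, |th (i + 1) - th i| ≤ ℓ i := fun i =>
    (Classical.choose_spec (hstep i (st i).1 (st i).2).2).1
  have hℓs : ∀ i, ℓ (i + 1) ≤ R.r₀ * ℓ i := fun i => (hstep i (st i).1 (st i).2).1
  have hℓ4 : ∀ i, ℓ (i + 1) ≤ ℓ i / 4 := by
    intro i
    have := hℓs i
    have h2 := hℓpos i
    nlinarith
  have hℓgeo : ∀ i, ℓ i ≤ ℓ 0 * (1 / 4) ^ i := by
    intro i
    induction i with
    | zero => simp
    | succ i ih =>
      have := hℓ4 i
      rw [pow_succ]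
      linarith
  have hnest : ∀ i, Icc (th (i + 1) - 2 * ℓ (i + 1)) (th (i + 1) + 2 * ℓ (i + 1)) ⊆
      Icc (th i - 2 * ℓ i) (th i + 2 * ℓ i) := by
    intro i x hx
    have h1 := abs_le.1 (hths i)
    have h2 := hℓ4 i
    have h3 := hℓpos i
    have h4 := hℓpos (i + 1)
    constructor
    · have := hx.1; linarith [h1.1]
    · have := hx.2; linarith [h1.2]
  obtain ⟨θ, hθ⟩ : (⋂ i, Icc (th i - 2 * ℓ i) (th i + 2 * ℓ i)).Nonempty := by
    apply IsCompact.nonempty_iInter_of_sequence_nonempty_isCompact_isClosed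
    · exact hnest
    · intro i
      refine ⟨th i, ?_, ?_⟩ <;> linarith [hℓpos i]
    · exact isCompact_Icc
    · intro i; exact isClosed_Icc
  rw [mem_iInter] at hθ
  have hθi : ∀ i, |θ - th i| ≤ 2 * ℓ i := by
    intro i
    rw [abs_le]
    constructor
    · linarith [(hθ i).1]
    · linarith [(hθ i).2]
  have hℓ0δ' : ℓ 0 ≤ δ := hℓ0δ
  have hθΘ : θ ∈ Icc (-Θ) Θ := by
    have h1 := hθ 0
    rw [hth0] at h1
    have h2 := (abs_le.1 hθ₀δ).1
    have h3 := (abs_le.1 hθ₀δ).2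
    constructor
    · have := h1.1; simp only [Θ]; linarith
    · have := h1.2; simp only [Θ]; linarith
  -- the point avoids all bad intervals
  have hPfmono : ∀ i j, i ≤ j → Pf i ⊆ Pf j := by
    intro i j hij
    induction j, hij using Nat.le_induction with
    | base => exact Finset.Subset.refl _
    | succ j _ ih =>
      rw [hPfs]
      exact ih.trans Finset.subset_union_left
  have havd0 : ∀ i, ∀ b h : ℝ, (b, h) ∈ Pf i → h < |θ - b| := by
    intro i b h hmem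
    by_contra hcon
    push Not at hcon
    have hhpos : 0 < h := hPfpos i _ hmem
    -- choose j > i with ℓ j ≤ h
    obtain ⟨j, hj⟩ : ∃ j, ℓ 0 * (1 / 4) ^ j < h := by
      have h1 : Tendsto (fun j : ℕ => ℓ 0 * (1 / 4 : ℝ) ^ j) atTop (𝓝 (ℓ 0 * 0)) :=
        (tendsto_pow_atTop_nhds_zero_of_lt_one (by norm_num) (by norm_num)).const_mul _
      rw [mul_zero] at h1
      exact (h1.eventually (gt_mem_nhds hhpos)).exists
    set k := max i j with hk
    have hk1 : ℓ k ≤ h := by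
      have h1 := hℓgeo k
      have h2 : (1 / 4 : ℝ) ^ k ≤ (1 / 4) ^ j :=
        pow_le_pow_of_le_one (by norm_num) (by norm_num) (le_max_right _ _)
      have h3 := hℓpos 0
      nlinarith
    have hmem2 : (b, h) ∈ Pf k := by
      exact hPfmono i k (le_max_left _ _) hmem
    have hW := (hthQ k).2
    have hle : (1 : ℝ) ≤ W (Pf k) (th k) (ℓ k) := by
      unfold W
      have hterm : (1 : ℝ) ≤ (if |((b, h) : ℝ × ℝ).1 - th k| ≤ 2 * ℓ k + ((b, h) : ℝ × ℝ).2 then
          min 1 (Real.sqrt (((b, h) : ℝ × ℝ).2 / ℓ k)) else 0) := by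
        have hcond : |((b, h) : ℝ × ℝ).1 - th k| ≤ 2 * ℓ k + ((b, h) : ℝ × ℝ).2 := by
          have h1 := hθi k
          have h2 : |b - th k| ≤ |θ - b| + |θ - th k| := by
            have : b - th k = -(θ - b) + (θ - th k) := by ring
            rw [this]
            calc |-(θ - b) + (θ - th k)| ≤ |-(θ - b)| + |θ - th k| := abs_add_le _ _
              _ = |θ - b| + |θ - th k| := by rw [abs_neg]
          simp only
          linarith
        rw [if_pos hcond]
        apply le_min le_rfl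
        rw [Real.one_le_sqrt]
        rw [le_div_iff₀ (hℓpos k)]
        simp only
        linarith
      refine hterm.trans ?_
      apply Finset.single_le_sum (f := fun b : ℝ × ℝ => if |b.1 - th k| ≤ 2 * ℓ k + b.2 then
          min 1 (Real.sqrt (b.2 / ℓ k)) else 0) _ hmem2
      intro b' _
      show 0 ≤ (if |b'.1 - th k| ≤ 2 * ℓ k + b'.2 then min 1 (Real.sqrt (b'.2 / ℓ k)) else 0)
      split_ifs
      · exact le_min zero_le_one (Real.sqrt_nonneg _)
      · exact le_rfl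
    linarith
  have havd : ∀ i, ∀ n ∈ N i, ∀ b ∈ B n, r ^ n * (L.η (n + 2) / 9) < |θ - b| := by
    intro i n hn b hb
    apply havd0 (i + 1)
    rw [hPfs]
    apply Finset.mem_union_right
    simp only [Fam, Finset.mem_biUnion, Finset.mem_image]
    exact ⟨n, hn, b, hb, rfl⟩
  refine ⟨θ, abs_le.2 hθΘ, fun b hb => havd0 0 b.1 b.2 (by rw [hPf0]; exact hb), ?_⟩
  intro n hn s hs
  -- find the window
  obtain ⟨i, hi1, hi2⟩ : ∃ i : ℕ, G i ≤ n ∧ n < G (i + 1) := by
    have hex : ∃ j, n < G j := ⟨n + 1, by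
      have := hGmono.id_le (n + 1)
      simp only [id] at this
      omega⟩
    have hpos : 0 < Nat.find hex := by
      rw [Nat.pos_iff_ne_zero]
      intro h0
      have := Nat.find_spec hex
      rw [h0] at this
      omega
    refine ⟨Nat.find hex - 1, ?_, ?_⟩
    · have := Nat.find_min hex (m := Nat.find hex - 1) (by omega)
      omega
    · have h1 : Nat.find hex - 1 + 1 = Nat.find hex := by omega
      rw [h1]
      exact Nat.find_spec hex
  rcases eq_or_ne n (G i) with hA | hA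
  · subst hA
    refine (min_le_left _ _).trans ?_
    exact Good.left (hthQ i).1 θ (hθi i) s hs
  rcases eq_or_ne (n + 1) (G (i + 1)) with hA2 | hA2
  · refine (min_le_left _ _).trans ?_
    have h1 := Good.right (hthQ (i + 1)).1 θ (hθi (i + 1)) s
      (by rw [← hA2]; exact hs)
    refine le_trans ?_ h1
    have h2 : (1 + R.d) ^ (n + 1) ≤ (1 + R.d) ^ (G (i + 1) + 1) :=
      pow_le_pow_right₀ (by linarith) (by omega)
    have : 0 < R.c / 4 := by positivity
    nlinarith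
  · have hmem : n ∈ N i := (hNmem i n).2 ⟨by omega, by omega⟩
    have h1 := (hBB n (hGbet i n (by omega) (by omega)) (hGbet i (n + 1) (by omega) (by omega))).2 θ hθΘ
      (havd i n hmem) s hs
    refine (min_le_right _ _).trans (le_trans ?_ h1)
    rw [mul_pow, ← pow_mul, ← pow_mul, mul_comm n m, pow_succ]
    have h3 : 0 < (1 + R.d) ^ n := by positivity
    have h4 : 0 < r ^ (m * n) := by positivity
    have h5 : (1 + R.d) ^ n ≤ (1 + R.d) ^ n * (1 + R.d) := by nlinarith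
    calc t₀ * (r ^ (m * n) * (1 + R.d) ^ n) = (t₀ * r ^ (m * n)) * (1 + R.d) ^ n := by ring
      _ ≤ (t₀ * r ^ (m * n)) * ((1 + R.d) ^ n * (1 + R.d)) :=
          mul_le_mul_of_nonneg_left h5 (by positivity)

end Pool.Agent.Y295.HR
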