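import Pool.Agent.Y295.HR.C

/-! From rich sets to Hausdorff measure. -/

open Filter Topology Set MeasureTheory
open scoped ENNReal NNReal

namespace Pool.Agent.Y295.HR

open Pool.Agent.Helper95.Hada

theorem sum_image_le (f : ℕ → ℝ × ℝ) (g : ℝ × ℝ → ℝ) (hg : ∀ b, 0 ≤ g b) (I : Finset ℕ) :
    ∑ b ∈ I.image f, g b ≤ ∑ n ∈ I, g (f n) := by
  classical
  induction I using Finset.induction_on with
  | empty => simp
  | insert a s ha ih =>
    rw [Finset.image_insert, Finset.sum_insert ha]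
    by_cases h : f a ∈ s.image f
    · rw [Finset.insert_eq_of_mem h]
      have := hg (f a)
      linarith
    · rw [Finset.sum_insert h]
      linarith

/-- a compact set that is not covered by finitely many intervals with small sum of the square
roots of the lengths has positive `1/2`-dimensional Hausdorff measure -/
theorem hausdorff_pos {K : Set ℝ} (hK : IsCompact K) {v : ℝ} (hv : 0 < v)
    (h : ∀ P : Finset (ℝ × ℝ), (∀ b ∈ P, 0 < b.2) → ∑ b ∈ P, Real.sqrt b.2 < v →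
      ∃ θ ∈ K, ∀ b ∈ P, b.2 < |θ - b.1|) :
    Measure.hausdorffMeasure (1 / 2 : ℝ) K ≠ 0 := by
  classical
  intro h0
  rw [Measure.hausdorffMeasure_apply] at h0
  simp only [ENNReal.iSup_eq_zero] at h0
  have h1 := h0 1 one_pos
  have h2 : (⨅ (t : ℕ → Set ℝ) (_ : K ⊆ ⋃ n, t n) (_ : ∀ n, Metric.ediam (t n) ≤ 1),
      ∑' n, ⨆ _ : (t n).Nonempty, Metric.ediam (t n) ^ (1 / 2 : ℝ)) < ENNReal.ofReal (v / 2) := by
    rw [h1]
    exact ENNReal.ofReal_pos.2 (by positivity)
  simp only [iInf_lt_iff] at h2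
  obtain ⟨t, hcov, hdiam, hsum⟩ := h2
  -- centres and radii
  set x : ℕ → ℝ := fun n => (Metric.ediam (t n)).toReal with hx
  have hfin : ∀ n, Metric.ediam (t n) ≠ ⊤ := fun n => ne_top_of_le_ne_top ENNReal.one_ne_top (hdiam n)
  have hx0 : ∀ n, 0 ≤ x n := fun n => ENNReal.toReal_nonneg
  have hterm : ∀ n, (⨆ _ : (t n).Nonempty, Metric.ediam (t n) ^ (1 / 2 : ℝ)) =
      ENNReal.ofReal (Real.sqrt (x n)) := by
    intro n
    by_cases hn : (t n).Nonempty
    · simp only [hn, ciSup_unique]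
      rw [Real.sqrt_eq_rpow, ← ENNReal.ofReal_rpow_of_nonneg (hx0 n) (by norm_num), hx]
      simp only
      rw [ENNReal.ofReal_toReal (hfin n)]
    · rw [not_nonempty_iff_eq_empty] at hn
      simp [hn, hx]
  simp only [hterm] at hsum
  have hsumm : Summable (fun n => Real.sqrt (x n)) := by
    have h3 : (∑' n, ENNReal.ofReal (Real.sqrt (x n))) ≠ ⊤ := (hsum.trans ENNReal.ofReal_lt_top).ne
    exact (ENNReal.summable_toReal h3).congr fun n => by
      rw [ENNReal.toReal_ofReal (Real.sqrt_nonneg _)]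
  have hsum2 : ∑' n, Real.sqrt (x n) < v / 2 := by
    rw [← ENNReal.ofReal_tsum_of_nonneg (fun n => Real.sqrt_nonneg _) hsumm] at hsum
    exact (ENNReal.ofReal_lt_ofReal_iff (by positivity)).1 hsum
  have hcen : ∀ n, ∃ b : ℝ, ∀ θ ∈ t n, |θ - b| ≤ x n := by
    intro n
    rcases (t n).eq_empty_or_nonempty with hn | ⟨b, hb⟩
    · exact ⟨0, by simp [hn]⟩
    · refine ⟨b, fun θ hθ => ?_⟩
      have h3 : edist θ b ≤ Metric.ediam (t n) := Metric.edist_le_ediam_of_mem hθ hb
      have h4 := ENNReal.toReal_mono (hfin n) h3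
      rwa [edist_dist, ENNReal.toReal_ofReal dist_nonneg, Real.dist_eq] at h4
  choose b hb using hcen
  set e : ℕ → ℝ := fun n => v / 8 * (1 / 2) ^ n with he
  have he0 : ∀ n, 0 < e n := fun n => by simp only [he]; positivity
  set r : ℕ → ℝ := fun n => x n + (e n) ^ 2 with hr
  have hr0 : ∀ n, 0 < r n := fun n => by
    have := he0 n
    have := hx0 n
    simp only [hr]; positivity
  have hsqr : ∀ n, Real.sqrt (r n) ≤ Real.sqrt (x n) + e n := by
    intro n
    have h3 := Real.sqrt_nonneg (x n)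
    have h4 := he0 n
    rw [Real.sqrt_le_left (by positivity)]
    have h5 := Real.sq_sqrt (hx0 n)
    simp only [hr]
    nlinarith
  have hes : HasSum e (v / 4) := by
    have h3 := (hasSum_geometric_of_lt_one (r := (1 / 2 : ℝ)) (by norm_num) (by norm_num)).mul_left
      (v / 8)
    have h4 : v / 8 * (1 - 1 / 2)⁻¹ = v / 4 := by norm_num; ring
    rwa [h4] at h3
  -- the finite subcover
  have hcov' : K ⊆ ⋃ n, Metric.ball (b n) (r n) := by
    intro θ hθ
    obtain ⟨n, hn⟩ := mem_iUnion.1 (hcov hθ)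
    refine mem_iUnion.2 ⟨n, ?_⟩
    rw [Metric.mem_ball, Real.dist_eq]
    have h3 := hb n θ hn
    have h4 := he0 n
    have h5 : 0 < (e n) ^ 2 := by positivity
    simp only [hr]
    linarith
  obtain ⟨I, hI⟩ := hK.elim_finite_subcover _ (fun n => Metric.isOpen_ball) hcov'
  obtain ⟨θ, hθK, hθ⟩ := h (I.image fun n => (b n, r n)) (by
    intro p hp
    obtain ⟨n, -, rfl⟩ := Finset.mem_image.1 hp
    exact hr0 n) (by
    calc ∑ p ∈ I.image (fun n => (b n, r n)), Real.sqrt p.2 ≤ ∑ n ∈ I, Real.sqrt (r n) :=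
          sum_image_le (fun n => (b n, r n)) (fun p => Real.sqrt p.2) (fun p => Real.sqrt_nonneg _) I
      _ ≤ ∑ n ∈ I, (Real.sqrt (x n) + e n) := Finset.sum_le_sum fun n _ => hsqr n
      _ = ∑ n ∈ I, Real.sqrt (x n) + ∑ n ∈ I, e n := Finset.sum_add_distrib
      _ ≤ ∑' n, Real.sqrt (x n) + v / 4 := by
          apply add_le_add
          · exact hsumm.sum_le_tsum _ fun n _ => Real.sqrt_nonneg _
          · rw [← hes.tsum_eq]
            exact hes.summable.sum_le_tsum _ fun n _ => (he0 n).le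
      _ < v := by linarith)
  obtain ⟨n, hn⟩ := mem_iUnion.1 (hI hθK)
  obtain ⟨hnI, hn⟩ := mem_iUnion.1 hn
  have h3 := hθ (b n, r n) (Finset.mem_image_of_mem _ hnI)
  rw [Metric.mem_ball, Real.dist_eq] at hn
  simp only at h3
  linarith

/-- the series is continuous in `θ` -/
theorem F_cont (S : Ser) {s : ℝ} (hs : 0 < s) : Continuous (fun θ => S.F s θ) := by
  unfold Ser.F
  have h1 : ContinuousOn S.G {z | z.re < 0} := S.differentiableOn_G.continuousOn
  have h2 : Continuous (fun θ : ℝ => (⟨-s, θ⟩ : ℂ)) := by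
    have : (fun θ : ℝ => (⟨-s, θ⟩ : ℂ)) = fun θ : ℝ => ((-s : ℝ) : ℂ) + θ * Complex.I := by
      funext θ
      apply Complex.ext <;> simp
    rw [this]
    fun_prop
  exact h1.comp_continuous h2 (fun θ => by show -s < 0; linarith)

/-- uniform version of `limit_lemma` -/
theorem limit_unif {S : Ser} {d : ℝ} (L : Lev S d) (ψ : ℕ → ℝ) (hψ : Tendsto ψ atTop atTop)
    (n₀ : ℕ) (R : ℝ) : ∃ s₀ : ℝ, 0 < s₀ ∧ ∀ θ : ℝ,
      (∀ n, n₀ ≤ n → ∀ s ∈ Icc (L.s (n + 2)) (L.s (n + 1)), ψ n ≤ ‖S.F s θ‖) →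
      ∀ s, 0 < s → s < s₀ → R ≤ ‖S.F s θ‖ := by
  obtain ⟨n1, hn1⟩ := (eventually_atTop.1 (hψ.eventually_ge_atTop R))
  set N := max n₀ n1 with hN
  refine ⟨L.s (N + 1), L.s_pos _, fun θ h s hs0 hs1 => ?_⟩
  have hex : ∃ k, L.s k < s := by
    have := (L.tendsto_s.eventually_lt_const hs0)
    exact this.exists
  classical
  have hk := Nat.find_spec hex
  have hkmin : ∀ m < Nat.find hex, ¬ L.s m < s := fun m hm => Nat.find_min hex hm
  set k := Nat.find hex with hkdef
  have hk2 : N + 1 < k := by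
    have h1 : L.s k < L.s (N+1) := lt_of_lt_of_le hk hs1.le
    exact L.anti.lt_iff_gt.1 h1
  clear_value k
  obtain ⟨n, rfl⟩ : ∃ n, k = n + 2 := ⟨k - 2, by omega⟩
  have h2 : s ≤ L.s (n + 1) := not_lt.1 (hkmin (n+1) (by omega))
  have h3 := h n (by have := le_max_left n₀ n1; omega) s ⟨hk.le, h2⟩
  have h4 := hn1 n (by have := le_max_right n₀ n1; omega)
  exact h4.trans h3

/-- translation of the argument -/
noncomputable def shift (S : Ser) (c : ℝ) : Ser where
  q := S.q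
  lam := S.lam
  a := fun k => S.a k * Complex.exp ((S.lam k * c : ℝ) * Complex.I)
  one_lt_q := S.one_lt_q
  lam_pos := S.lam_pos
  ratio := S.ratio
  summ := by
    intro s hs
    refine (S.summ s hs).congr fun k => ?_
    rw [norm_mul, Complex.norm_exp_ofReal_mul_I, mul_one]

theorem shift_M (S : Ser) (c : ℝ) : (shift S c).M = S.M := by
  funext s
  unfold Ser.M Ser.x shift
  simp only [norm_mul, Complex.norm_exp_ofReal_mul_I, mul_one]

theorem shift_F (S : Ser) (c s θ : ℝ) : (shift S c).F s θ = S.F s (θ + c) := by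
  unfold Ser.F Ser.G shift
  simp only
  refine tsum_congr fun k => ?_
  rw [mul_assoc, ← Complex.exp_add]
  congr 2
  apply Complex.ext <;> simp
  ring

/-- main theorem on lacunary series with real frequencies: in every interval there is a compact
set of positive `1/2`-dimensional Hausdorff measure on which the modulus tends to infinity
uniformly -/
theorem ser_rich (S : Ser) (hS : Tendsto S.M (𝓝[>] 0) atTop) {α β : ℝ} (hαβ : α < β) :
    ∃ K : Set ℝ, K ⊆ Ioo α β ∧ IsCompact K ∧ Measure.hausdorffMeasure (1 / 2 : ℝ) K ≠ 0 ∧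
      ∀ R : ℝ, ∃ s₀ : ℝ, 0 < s₀ ∧ ∀ s, 0 < s → s < s₀ → ∀ θ ∈ K, R ≤ ‖S.F s θ‖ := by
  set c : ℝ := (α + β) / 2 with hc
  set δ : ℝ := (β - α) / 12 with hδ
  have hδ0 : 0 < δ := by rw [hδ]; linarith
  obtain ⟨d, L, ψ, n₀, v, hψ, hv, hP⟩ := main_loc (shift S c) (by rw [shift_M]; exact hS) hδ0
  set K' : Set ℝ := {θ | θ ∈ Icc (-(3 * δ)) (3 * δ) ∧ ∀ n, n₀ ≤ n →
    ∀ s ∈ Icc (L.s (n + 2)) (L.s (n + 1)), ψ n ≤ ‖(shift S c).F s θ‖} with hK'
  have hK'c : IsCompact K' := by
    have h1 : IsClosed {θ : ℝ | ∀ n, n₀ ≤ n →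
        ∀ s ∈ Icc (L.s (n + 2)) (L.s (n + 1)), ψ n ≤ ‖(shift S c).F s θ‖} := by
      simp only [Set.ofPred_forall]
      refine isClosed_iInter fun n => isClosed_iInter fun _ => isClosed_iInter fun s =>
        isClosed_iInter fun hs => ?_
      have hs0 : 0 < s := lt_of_lt_of_le (L.s_pos _) hs.1
      exact isClosed_le continuous_const (F_cont _ hs0).norm
    exact isCompact_Icc.inter_right h1
  have hK'0 : Measure.hausdorffMeasure (1 / 2 : ℝ) K' ≠ 0 := by
    refine hausdorff_pos hK'c hv fun P hP0 hPv => ?_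
    obtain ⟨θ, h1, h2, h3⟩ := hP P hP0 hPv
    exact ⟨θ, ⟨abs_le.1 h1, h3⟩, h2⟩
  refine ⟨(fun θ => θ + c) '' K', ?_, hK'c.image (by fun_prop), ?_, ?_⟩
  · rintro _ ⟨θ, hθ, rfl⟩
    have h1 := hθ.1.1
    have h2 := hθ.1.2
    simp only [hδ] at h1 h2
    constructor
    · simp only [hc]; linarith
    · simp only [hc]; linarith
  · rw [(isometry_add_right c).hausdorffMeasure_image (Or.inl (by norm_num))]
    exact hK'0
  · intro R
    obtain ⟨s₀, hs₀, h1⟩ := limit_unif L ψ hψ n₀ R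
    refine ⟨s₀, hs₀, ?_⟩
    rintro s hs hss _ ⟨θ, hθ, rfl⟩
    have h2 := h1 θ hθ.2 s hs hss
    rwa [shift_F] at h2

end Pool.Agent.Y295.HR
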